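import Pool.Agent.Lib_helper59.HT.Defs2
import Pool.Agent.Lib_helper59.HT.A_Z_pos
import Pool.Agent.Lib_helper59.HT.A_expm

/-! BLOCK G3: `few_touch` -/

set_option autoImplicit false

open Finset Matrix

namespace Pool.Agent.HT

lemma g3_wt_nonneg {n : ℕ} (τ : E' n → Tri n) : 0 ≤ wt τ := sq_nonneg _

/-- number of triples touching `B` -/
lemma g3_cnt_touch {n : ℕ} (B : Finset (Fin n × Fin n)) :
    (cnt (fun t : Tri n => touch t B) : ℝ) ≤ 3 * n * B.card := by
  classical
  unfold cnt
  have hsub : (Finset.univ.filter (fun t : Tri n => touch t B)) ⊆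
      ((B ×ˢ (Finset.univ : Finset (Fin n))).image
        (fun x : (Fin n × Fin n) × Fin n => ((x.1.1, x.1.2, x.2) : Tri n))) ∪
      ((B ×ˢ (Finset.univ : Finset (Fin n))).image
        (fun x : (Fin n × Fin n) × Fin n => ((x.2, x.1.1, x.1.2) : Tri n))) ∪
      ((B ×ˢ (Finset.univ : Finset (Fin n))).image
        (fun x : (Fin n × Fin n) × Fin n => ((x.1.2, x.2, x.1.1) : Tri n))) := by
    intro t ht
    obtain ⟨a, b, c⟩ := t
    have ht' : touch (a, b, c) B := (Finset.mem_filter.mp ht).2
    simp only [Finset.mem_union, Finset.mem_image, Finset.mem_product, Finset.mem_univ,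
      and_true, Prod.exists, Prod.mk.injEq]
    rcases ht' with h | h | h
    · exact Or.inl (Or.inl ⟨a, b, c, h, rfl, rfl, rfl⟩)
    · exact Or.inl (Or.inr ⟨b, c, a, h, rfl, rfl, rfl⟩)
    · exact Or.inr ⟨c, a, b, h, rfl, rfl, rfl⟩
  have h1 : (Finset.univ.filter (fun t : Tri n => touch t B)).card ≤
      B.card * n + B.card * n + B.card * n := by
    refine (Finset.card_le_card hsub).trans ((Finset.card_union_le _ _).trans ?_)
    refine Nat.add_le_add ((Finset.card_union_le _ _).trans ?_) ?_
    · refine Nat.add_le_add ?_ ?_ <;>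
      · refine Finset.card_image_le.trans ?_
        simp [Finset.card_product]
    · refine Finset.card_image_le.trans ?_
      simp [Finset.card_product]
  have h2 : ((Finset.univ.filter (fun t : Tri n => touch t B)).card : ℝ) ≤
      ((B.card * n + B.card * n + B.card * n : ℕ) : ℝ) := by exact_mod_cast h1
  refine h2.trans (le_of_eq ?_)
  push_cast
  ring

/-- lower bound for the number of rows -/
lemma g3_Nr (n : ℕ) : n * n ≤ 2 * Nr n + 3 * n := by
  classical
  have hcard : (Finset.univ.filter (fun x : Fin n × Fin n => 0 < x.1.val ∧ x.1 < x.2)).card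
      = Nr n := by
    unfold Nr
    rw [Fintype.card_subtype]
  have hsub : (Finset.univ : Finset (Fin n × Fin n)) ⊆
      (Finset.univ.filter (fun x : Fin n × Fin n => 0 < x.1.val ∧ x.1 < x.2)) ∪
      (Finset.univ.filter (fun x : Fin n × Fin n => 0 < x.1.val ∧ x.1 < x.2)).image Prod.swap ∪
      (Finset.univ.image (fun i : Fin n => (i, i))) ∪
      (Finset.univ.filter (fun x : Fin n × Fin n => x.1.val = 0)) ∪
      (Finset.univ.filter (fun x : Fin n × Fin n => x.2.val = 0)) := by
    intro x _
    obtain ⟨a, b⟩ := x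
    simp only [Finset.mem_union, Finset.mem_filter, Finset.mem_univ, true_and,
      Finset.mem_image, Prod.exists, Prod.mk.injEq, Prod.swap_prod_mk]
    by_cases ha : a.val = 0
    · exact Or.inl (Or.inr ha)
    by_cases hb : b.val = 0
    · exact Or.inr hb
    left; left
    rcases lt_trichotomy a b with h | h | h
    · exact Or.inl (Or.inl ⟨Nat.pos_of_ne_zero ha, h⟩)
    · exact Or.inr ⟨a, rfl, h⟩
    · exact Or.inl (Or.inr ⟨b, a, ⟨Nat.pos_of_ne_zero hb, h⟩, rfl, rfl⟩)
  have hz1 : (Finset.univ.filter (fun x : Fin n × Fin n => x.1.val = 0)).card ≤ n := by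
    have : (Finset.univ.filter (fun x : Fin n × Fin n => x.1.val = 0)).card ≤
        (Finset.univ : Finset (Fin n)).card := by
      apply Finset.card_le_card_of_injOn (fun x => x.2)
      · intro x _
        simp
      · intro x hx y hy hxy
        simp only [Finset.coe_filter, Finset.mem_univ, true_and, Set.mem_ofPred_eq] at hx hy
        have h1 : x.1 = y.1 := Fin.ext (by rw [hx, hy])
        exact Prod.ext h1 hxy
    simpa using this
  have hz2 : (Finset.univ.filter (fun x : Fin n × Fin n => x.2.val = 0)).card ≤ n := by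
    have : (Finset.univ.filter (fun x : Fin n × Fin n => x.2.val = 0)).card ≤
        (Finset.univ : Finset (Fin n)).card := by
      apply Finset.card_le_card_of_injOn (fun x => x.1)
      · intro x _
        simp
      · intro x hx y hy hxy
        simp only [Finset.coe_filter, Finset.mem_univ, true_and, Set.mem_ofPred_eq] at hx hy
        have h1 : x.2 = y.2 := Fin.ext (by rw [hx, hy])
        exact Prod.ext hxy h1
    simpa using this
  have hd : (Finset.univ.image (fun i : Fin n => (i, i))).card ≤ n := by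
    refine Finset.card_image_le.trans ?_
    simp
  have hs : ((Finset.univ.filter (fun x : Fin n × Fin n => 0 < x.1.val ∧ x.1 < x.2)).image
      Prod.swap).card ≤ Nr n := by
    refine Finset.card_image_le.trans ?_
    rw [hcard]
  have h := Finset.card_le_card hsub
  have hu : (Finset.univ : Finset (Fin n × Fin n)).card = n * n := by
    simp [Fintype.card_prod]
  rw [hu] at h
  refine h.trans ((Finset.card_union_le _ _).trans ?_)
  have h1 := Finset.card_union_le
    ((Finset.univ.filter (fun x : Fin n × Fin n => 0 < x.1.val ∧ x.1 < x.2)) ∪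
      (Finset.univ.filter (fun x : Fin n × Fin n => 0 < x.1.val ∧ x.1 < x.2)).image Prod.swap ∪
      (Finset.univ.image (fun i : Fin n => (i, i))))
    (Finset.univ.filter (fun x : Fin n × Fin n => x.1.val = 0))
  have h2 := Finset.card_union_le
    ((Finset.univ.filter (fun x : Fin n × Fin n => 0 < x.1.val ∧ x.1 < x.2)) ∪
      (Finset.univ.filter (fun x : Fin n × Fin n => 0 < x.1.val ∧ x.1 < x.2)).image Prod.swap)
      (Finset.univ.image (fun i : Fin n => (i, i)))
  have h3 := Finset.card_union_le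
    (Finset.univ.filter (fun x : Fin n × Fin n => 0 < x.1.val ∧ x.1 < x.2))
      ((Finset.univ.filter (fun x : Fin n × Fin n => 0 < x.1.val ∧ x.1 < x.2)).image Prod.swap)
  omega

theorem few_touch_pr (ε' : ℝ) (hε' : 0 < ε') : ∃ ε1 : ℝ, 0 < ε1 ∧ ∀ ε : ℝ, 0 < ε → ∃ N : ℕ,
    ∀ n : ℕ, N ≤ n →
    mass (fun τ : E' n → Tri n => ∃ B : Finset (Fin n × Fin n), (B.card : ℝ) ≤ ε1 * (n : ℝ) ^ 2 ∧
      ε' * Nr n < cnt (fun i => touch (τ i) B)) ≤ ε * Z n := by
  classical
  -- constants
  set c : ℝ := ε' * Real.log 2 / 4 with hc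
  have hlog2 : 0 < Real.log 2 := Real.log_pos (by norm_num)
  have hcpos : 0 < c := by positivity
  set l : ℝ := 4 / c with hl
  have hlpos : 0 < l := by positivity
  have hexpl : Real.exp (-l) ≤ c / 4 := by
    have h1 : l ≤ Real.exp l := by
      have := Real.add_one_le_exp l
      linarith
    rw [Real.exp_neg]
    have h2 : (c / 4) = l⁻¹ := by rw [hl]; field_simp
    rw [h2]
    exact inv_anti₀ hlpos h1
  set ε1 : ℝ := c / (4 * (l + 2)) with hε1
  have hε1pos : 0 < ε1 := by positivity
  have hLe : (l + 3 / 2) * ε1 ≤ c / 4 := by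
    rw [hε1]
    rw [mul_div_assoc', div_le_div_iff₀ (by positivity) (by norm_num)]
    nlinarith
  refine ⟨ε1, hε1pos, fun ε hε => ?_⟩
  obtain ⟨N0, hN0⟩ := exists_nat_gt (2 / (c * ε))
  refine ⟨N0 + 6, fun n hn => ?_⟩
  have hn6 : 6 ≤ n := by omega
  have hnR6 : (6 : ℝ) ≤ n := by exact_mod_cast hn6
  have hnpos : (0 : ℝ) < n := by linarith
  have hnN0 : (N0 : ℝ) ≤ n := by exact_mod_cast (by omega : N0 ≤ n)
  have hZ : 0 < Z n := Z_pos n (by omega)
  -- Nr bound
  have hNr : (n : ℝ) ^ 2 / 4 ≤ Nr n := by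
    have h := g3_Nr n
    have h' : (n : ℝ) * n ≤ 2 * Nr n + 3 * n := by exact_mod_cast h
    nlinarith
  -- Markov + union
  have hmain : mass (fun τ : E' n → Tri n => ∃ B : Finset (Fin n × Fin n),
      (B.card : ℝ) ≤ ε1 * (n : ℝ) ^ 2 ∧ ε' * Nr n < cnt (fun i => touch (τ i) B)) ≤
      ∑ B : Finset (Fin n × Fin n), ∑ τ : E' n → Tri n,
        Real.exp ((l + 3 / 2) * (ε1 * (n : ℝ) ^ 2 - B.card)) *
          (Real.exp (-(Real.log 2 * (ε' * Nr n))) *
          (wt τ * (1 + 1) ^ (cnt fun i => touch (τ i) B))) := by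
    rw [Finset.sum_comm]
    unfold mass
    apply Finset.sum_le_sum
    intro τ _
    have hnn : ∀ B : Finset (Fin n × Fin n), 0 ≤
        Real.exp ((l + 3 / 2) * (ε1 * (n : ℝ) ^ 2 - B.card)) *
          (Real.exp (-(Real.log 2 * (ε' * Nr n))) *
          (wt τ * (1 + 1) ^ (cnt fun i => touch (τ i) B))) := by
      intro B
      have := g3_wt_nonneg τ
      positivity
    split_ifs with h
    · obtain ⟨B, hB1, hB2⟩ := h
      refine le_trans ?_ (Finset.single_le_sum (fun B _ => hnn B) (Finset.mem_univ B))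
      have h1 : 1 ≤ Real.exp ((l + 3 / 2) * (ε1 * (n : ℝ) ^ 2 - B.card)) := by
        apply Real.one_le_exp
        apply mul_nonneg (by linarith)
        linarith
      have h2 : 1 ≤ Real.exp (-(Real.log 2 * (ε' * Nr n))) *
          (1 + 1) ^ (cnt fun i => touch (τ i) B) := by
        have h3 : ((1 : ℝ) + 1) ^ (cnt fun i => touch (τ i) B) =
            Real.exp (Real.log 2 * (cnt fun i => touch (τ i) B)) := by
          rw [Real.exp_mul, Real.exp_log (by norm_num), Real.rpow_natCast]
          norm_num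
        rw [h3, ← Real.exp_add]
        apply Real.one_le_exp
        have : Real.log 2 * (ε' * Nr n) ≤ Real.log 2 * (cnt fun i => touch (τ i) B) :=
          mul_le_mul_of_nonneg_left hB2.le hlog2.le
        linarith
      calc wt τ = 1 * (1 * wt τ) := by ring
        _ ≤ Real.exp ((l + 3 / 2) * (ε1 * (n : ℝ) ^ 2 - B.card)) *
          ((Real.exp (-(Real.log 2 * (ε' * Nr n))) *
            (1 + 1) ^ (cnt fun i => touch (τ i) B)) * wt τ) := by
            have hw := g3_wt_nonneg τ
            exact mul_le_mul h1 (mul_le_mul_of_nonneg_right h2 hw) (by linarith) (by positivity)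
        _ = _ := by ring
    · exact Finset.sum_nonneg (fun B _ => hnn B)
  refine hmain.trans ?_
  -- bound of the inner sum
  have hinner : ∀ B : Finset (Fin n × Fin n), ∑ τ : E' n → Tri n,
        Real.exp ((l + 3 / 2) * (ε1 * (n : ℝ) ^ 2 - B.card)) *
          (Real.exp (-(Real.log 2 * (ε' * Nr n))) *
          (wt τ * (1 + 1) ^ (cnt fun i => touch (τ i) B))) ≤
        (Z n * Real.exp ((l + 3 / 2) * ε1 * (n : ℝ) ^ 2 - Real.log 2 * (ε' * Nr n))) *
          Real.exp (-l) ^ B.card := by
    intro B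
    rw [← Finset.mul_sum, ← Finset.mul_sum]
    have h1 := expm n (by omega) (fun t => touch t B) 1 (by norm_num)
    have h2 := g3_cnt_touch B
    have h3 : Z n * Real.exp (1 / (2 * (n : ℝ)) * (cnt fun t : Tri n => touch t B)) ≤
        Z n * Real.exp (3 / 2 * B.card) := by
      apply mul_le_mul_of_nonneg_left _ hZ.le
      apply Real.exp_le_exp.mpr
      calc 1 / (2 * (n : ℝ)) * (cnt fun t : Tri n => touch t B) ≤
          1 / (2 * (n : ℝ)) * (3 * n * B.card) := by
            apply mul_le_mul_of_nonneg_left h2 (by positivity)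
        _ = 3 / 2 * B.card := by field_simp
    calc Real.exp ((l + 3 / 2) * (ε1 * (n : ℝ) ^ 2 - B.card)) *
          (Real.exp (-(Real.log 2 * (ε' * Nr n))) *
          ∑ τ : E' n → Tri n, (wt τ * (1 + 1) ^ (cnt fun i => touch (τ i) B)))
        ≤ Real.exp ((l + 3 / 2) * (ε1 * (n : ℝ) ^ 2 - B.card)) *
          (Real.exp (-(Real.log 2 * (ε' * Nr n))) * (Z n * Real.exp (3 / 2 * B.card))) := by
            apply mul_le_mul_of_nonneg_left _ (Real.exp_pos _).le
            apply mul_le_mul_of_nonneg_left _ (Real.exp_pos _).le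
            exact h1.trans h3
      _ = Z n * (Real.exp ((l + 3 / 2) * (ε1 * (n : ℝ) ^ 2 - B.card)) *
          Real.exp (-(Real.log 2 * (ε' * Nr n))) * Real.exp (3 / 2 * B.card)) := by ring
      _ = Z n * (Real.exp ((l + 3 / 2) * ε1 * (n : ℝ) ^ 2 - Real.log 2 * (ε' * Nr n)) *
          Real.exp (-l * B.card)) := by
            rw [← Real.exp_add, ← Real.exp_add, ← Real.exp_add]
            congr 2
            ring
      _ = _ := by
            rw [Real.exp_mul, Real.rpow_natCast]
            ring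
  refine (Finset.sum_le_sum (fun B _ => hinner B)).trans ?_
  rw [← Finset.mul_sum]
  have hbin : ∑ B : Finset (Fin n × Fin n), Real.exp (-l) ^ B.card =
      (Real.exp (-l) + 1) ^ (n * n) := by
    have := Fintype.sum_pow_mul_eq_add_pow (Fin n × Fin n) (Real.exp (-l)) 1
    simpa using this
  rw [hbin]
  have hbin2 : (Real.exp (-l) + 1) ^ (n * n) ≤ Real.exp (c / 4 * (n : ℝ) ^ 2) := by
    have h1 : Real.exp (-l) + 1 ≤ Real.exp (c / 4) :=
      (Real.add_one_le_exp (Real.exp (-l))).trans (Real.exp_le_exp.mpr hexpl)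
    calc (Real.exp (-l) + 1) ^ (n * n) ≤ Real.exp (c / 4) ^ (n * n) :=
          pow_le_pow_left₀ (by positivity) h1 _
      _ = Real.exp (c / 4 * (n : ℝ) ^ 2) := by
          rw [← Real.exp_nat_mul]
          congr 1
          push_cast
          ring
  calc Z n * Real.exp ((l + 3 / 2) * ε1 * (n : ℝ) ^ 2 - Real.log 2 * (ε' * Nr n)) *
        (Real.exp (-l) + 1) ^ (n * n)
      ≤ Z n * Real.exp ((l + 3 / 2) * ε1 * (n : ℝ) ^ 2 - Real.log 2 * (ε' * Nr n)) *
        Real.exp (c / 4 * (n : ℝ) ^ 2) := by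
          apply mul_le_mul_of_nonneg_left hbin2 (by positivity)
    _ = Z n * Real.exp ((l + 3 / 2) * ε1 * (n : ℝ) ^ 2 - Real.log 2 * (ε' * Nr n) +
        c / 4 * (n : ℝ) ^ 2) := by rw [mul_assoc, ← Real.exp_add]
    _ ≤ Z n * ε := by
        apply mul_le_mul_of_nonneg_left _ hZ.le
        have hexp : (l + 3 / 2) * ε1 * (n : ℝ) ^ 2 - Real.log 2 * (ε' * Nr n) +
            c / 4 * (n : ℝ) ^ 2 ≤ -(c / 2 * n) := by
          have h1 : (l + 3 / 2) * ε1 * (n : ℝ) ^ 2 ≤ c / 4 * (n : ℝ) ^ 2 :=
            mul_le_mul_of_nonneg_right hLe (by positivity)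
          have h2 : c * (n : ℝ) ^ 2 ≤ Real.log 2 * (ε' * Nr n) := by
            have h3 : Real.log 2 * (ε' * ((n : ℝ) ^ 2 / 4)) ≤ Real.log 2 * (ε' * Nr n) := by
              apply mul_le_mul_of_nonneg_left _ hlog2.le
              apply mul_le_mul_of_nonneg_left hNr hε'.le
            refine le_trans (le_of_eq ?_) h3
            rw [hc]; ring
          have h4 : c / 2 * n ≤ c / 2 * (n : ℝ) ^ 2 := by
            apply mul_le_mul_of_nonneg_left _ (by positivity)
            nlinarith
          linarith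
        refine (Real.exp_le_exp.mpr hexp).trans ?_
        rw [Real.exp_neg]
        have h5 : 1 / ε ≤ Real.exp (c / 2 * n) := by
          have h6 : 1 / ε ≤ c / 2 * n := by
            have h7 : 2 / (c * ε) ≤ n := hN0.le.trans hnN0
            have h8 : 1 / ε = c / 2 * (2 / (c * ε)) := by field_simp
            rw [h8]
            exact mul_le_mul_of_nonneg_left h7 (by positivity)
          have := Real.add_one_le_exp (c / 2 * n)
          linarith
        have h9 : (Real.exp (c / 2 * n))⁻¹ ≤ (1 / ε)⁻¹ := inv_anti₀ (by positivity) h5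
        simpa using h9
    _ = ε * Z n := by ring

end Pool.Agent.HT
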